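import Mathlib

set_option autoImplicit false
open Finset

namespace Pool.Agent.H.MP_869403_co.A

open Classical in
theorem small0 {V : Type} [DecidableEq V] (B : V → V → Prop) (hB : ∀ u a, B u a → ¬ B a u)
    (m p : ℕ) : ∀ E : Finset V, E.card + 2 ≤ (m + 2) * 2 ^ p →
      ∃ P ⊆ E, P.card ≤ p ∧ (E.filter fun u => ∀ a ∈ P, B u a).card ≤ m := by
  induction p with
  | zero =>
    intro E h
    exact ⟨∅, by simpa using h⟩
  | succ p ih =>
    intro E h
    rcases E.eq_empty_or_nonempty with rfl | hE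
    · exact ⟨∅, by simp⟩
    obtain ⟨a, ha, h1⟩ : ∃ a ∈ E, 2 * (E.filter fun u => B u a).card + 1 ≤ E.card := by
      have e : ∑ a ∈ E, (E.filter fun u => B u a).card = ∑ a ∈ E, (E.filter fun u => B a u).card :=
        by simp only [card_filter]; exact sum_comm
      refine exists_le_of_sum_le hE ?_
      have : ∀ a ∈ E, (E.filter fun u => B u a).card + (E.filter fun u => B a u).card + 1 ≤
          E.card := by
        intro a ha
        rw [← card_union_of_disjoint (disjoint_filter.2 fun u _ h => hB u a h)]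
        refine card_lt_card ⟨union_subset (filter_subset _ _) (filter_subset _ _), fun h => ?_⟩
        have := h ha
        simp only [mem_union, mem_filter, or_self] at this
        exact hB a a this.2 this.2
      have := sum_le_sum this
      simp only [sum_add_distrib, ← mul_sum] at this ⊢
      omega
    obtain ⟨P, h2, h3, h4⟩ := ih (E.filter fun u => B u a) (by
      rw [pow_succ, ← mul_assoc] at h
      omega)
    refine ⟨insert a P, insert_subset ha (h2.trans (filter_subset _ _)),
      (card_insert_le _ _).trans (by omega), le_trans (card_le_card fun u hu => ?_) h4⟩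
    simpa [and_assoc] using hu

theorem small {V : Type} [DecidableEq V] (B : V → V → Prop) (hB : ∀ u a, B u a → ¬ B a u) (p : ℕ)
    (E : Finset V) (h : 2 * (E.card + 2) ≤ (p + 2) * 2 ^ p) :
    ∃ P ⊆ E, P.card ≤ p ∧ ∀ u ∈ E, u ∉ P → ∃ a ∈ P, ¬ B u a := by
  classical
  obtain _ | p := p
  · omega
  obtain ⟨P, h1, h2, h3⟩ := small0 B hB (p + 1) p E (by
    rw [pow_succ, ← mul_assoc] at h
    omega)
  by_cases c : ∃ x ∈ E, ∀ u ∈ E.filter fun u => ∀ a ∈ P, B u a, B x u
  · obtain ⟨x, hx, c⟩ := c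
    refine ⟨insert x P, insert_subset hx h1, (card_insert_le _ _).trans (by omega),
      fun u hu _ => ?_⟩
    by_contra d
    push Not at d
    exact hB _ _ (d x (mem_insert_self _ _))
      (c u (mem_filter.2 ⟨hu, fun a ha => d a (mem_insert_of_mem ha)⟩))
  · push Not at c
    exact ⟨_, filter_subset _ _, h3, fun u hu _ => c u hu⟩

def beat {n : ℕ} (f : Fin n → Fin n → Bool) (u a : Fin n) : Prop :=
  (u < a ∧ f u a = true) ∨ (a < u ∧ f a u = false)

open Classical in
theorem bad {n : ℕ} (S : Finset (Fin n)) :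
    ((univ.filter fun f : Fin n → Fin n → Bool => ∀ u, u ∉ S → ¬ ∀ a ∈ S, beat f u a).card : ℝ) ≤
      (2 ^ n) ^ n * (1 - 1 / 2 ^ S.card) ^ (n - S.card) := by
  let c : Fin n → Fin n → Prop := fun u a => (u ∉ S ∧ a ∈ S ∧ a < u) ∨ (a ∉ S ∧ u ∈ S ∧ u < a)
  let σ : (Fin n → Fin n → Bool) → Fin n → Fin n → Bool := fun f u a =>
    if c u a then !f a u else f u a
  have inv : Function.Involutive σ := fun f => by
    ext u a
    by_cases h : c u a
    · have h' : c a u := h.symm
      simp [σ, h, h']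
    · simp [σ, h]
  let R := univ.filter fun r : Fin n → Bool => ¬ ∀ a ∈ S, r a = true
  have hR : (R.card : ℝ) = 2 ^ n * (1 - 1 / 2 ^ S.card) := by
    have a := card_filter_add_card_filter_not (s := univ) fun r : Fin n → Bool => ∀ a ∈ S, r a = true
    have b : (univ.filter fun r : Fin n → Bool => ∀ a ∈ S, r a = true) =
        Fintype.piFinset fun a => if a ∈ S then {true} else univ := by
      ext r
      simp only [mem_filter, mem_univ, true_and, Fintype.mem_piFinset]
      refine forall_congr' fun a => ?_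
      split_ifs with h <;> simp [h]
    rw [b, Fintype.card_piFinset] at a
    simp only [apply_ite card, card_singleton, card_univ, Fintype.card_bool, prod_ite, prod_const,
      one_pow, one_mul, Fintype.card_fun, Fintype.card_fin] at a
    rw [filter_not, filter_mem_eq_inter, univ_inter, card_univ_sdiff, Fintype.card_fin] at a
    have c : (2 : ℝ) ^ n = 2 ^ (n - S.card) * 2 ^ S.card := by
      rw [← pow_add, Nat.sub_add_cancel (by simpa using card_le_univ S)]
    have d : (2 : ℝ) ^ (n - S.card) + R.card = 2 ^ n := by exact_mod_cast a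
    rw [mul_sub, mul_one, ← d, d, c]
    field_simp
    linarith
  have h := card_le_card_of_injOn (s := univ.filter fun f : Fin n → Fin n → Bool =>
    ∀ u, u ∉ S → ¬ ∀ a ∈ S, beat f u a) (t := Fintype.piFinset fun u => if u ∈ S then univ else R)
    σ (fun f hf => by
      simp only [coe_filter, mem_univ, true_and, Set.mem_ofPred_eq] at hf
      simp only [mem_coe, Fintype.mem_piFinset]
      intro u
      split_ifs with h
      · exact mem_univ _
      · refine mem_filter.2 ⟨mem_univ _, fun x => hf u h fun a ha => ?_⟩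
        have := x a ha
        rcases lt_trichotomy u a with l | rfl | l
        · exact Or.inl ⟨l, by simpa [σ, c, h, ha, l.not_gt] using this⟩
        · exact absurd ha h
        · exact Or.inr ⟨l, by simpa [σ, c, h, ha, l] using this⟩) inv.injective.injOn
  rw [Fintype.card_piFinset] at h
  simp only [apply_ite card, card_univ, prod_ite, prod_const, Fintype.card_fun, Fintype.card_bool,
    Fintype.card_fin] at h
  rw [filter_not, filter_mem_eq_inter, univ_inter, card_univ_sdiff, Fintype.card_fin] at h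
  refine (Nat.cast_le.2 h).trans (le_of_eq ?_)
  push_cast
  rw [hR, mul_pow, ← mul_assoc, ← pow_add, Nat.add_sub_cancel' (by simpa using card_le_univ S)]

theorem num (n k : ℕ) (h : 2 ^ (4 * k + 4) ≤ n) :
    (n : ℝ) ^ k * (1 - 1 / 2 ^ k) ^ (n - k) < 1 := by
  have k1 : k < 2 ^ k := Nat.lt_two_pow_self
  have k2 : (k : ℝ) < 2 ^ k := by exact_mod_cast k1
  have e : 2 ^ (4 * k + 4) = (4 * (2 ^ k) ^ 2) ^ 2 := by ring
  have h2 : 2 * k ≤ n := by
    have := Nat.pow_le_pow_right (n := 2) (by norm_num) (show k + 1 ≤ 4 * k + 4 by omega)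
    rw [pow_succ] at this
    omega
  have hn : ((4 * (2 ^ k) ^ 2) ^ 2 : ℝ) ≤ n := by exact_mod_cast e ▸ h
  have p : (0 : ℝ) < 2 ^ k := by positivity
  have n0 : (0 : ℝ) < n := lt_of_lt_of_le (by positivity) hn
  obtain ⟨s, s0, hs⟩ : ∃ s : ℝ, 0 < s ∧ s ^ 2 = n := ⟨√n, Real.sqrt_pos.2 n0, Real.sq_sqrt n0.le⟩
  have s1 : 4 * (2 ^ k) ^ 2 ≤ s := by
    rw [← hs] at hn
    exact (pow_le_pow_iff_left₀ (by positivity) s0.le two_ne_zero).1 hn
  have a : (1 - 1 / 2 ^ k : ℝ) ^ (n - k) ≤ Real.exp (-(1 / 2 ^ k)) ^ (n - k) :=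
    pow_le_pow_left₀ (by
      rw [sub_nonneg, div_le_one p]
      exact one_le_pow₀ one_le_two) (by linarith [Real.add_one_le_exp (-(1 / 2 ^ k : ℝ))]) _
  have b : (n : ℝ) ^ k ≤ Real.exp (2 * s) ^ k := by
    refine pow_le_pow_left₀ n0.le ?_ _
    rw [← hs, show 2 * s = (2 : ℕ) * s by norm_num, Real.exp_nat_mul]
    exact pow_le_pow_left₀ s0.le (by linarith [Real.add_one_le_exp s]) _
  refine (mul_le_mul b a (pow_nonneg (by
      rw [sub_nonneg, div_le_one p]
      exact one_le_pow₀ one_le_two) _) (by positivity)).trans_lt ?_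
  rw [← Real.exp_nat_mul, ← Real.exp_nat_mul, ← Real.exp_add, Real.exp_lt_one_iff,
    Nat.cast_sub (by omega)]
  have c : (2 * k : ℝ) ≤ n := by exact_mod_cast h2
  have d : k * (2 * s) * 2 ^ k < n - k := by
    have : (k : ℝ) * 2 ^ k < 2 ^ k * 2 ^ k := mul_lt_mul_of_pos_right k2 p
    have : 4 * (k * 2 ^ k) * s < s * s := mul_lt_mul_of_pos_right (by nlinarith) s0
    nlinarith
  have : k * (2 * s) < (n - k) / 2 ^ k := (lt_div_iff₀ p).2 d
  have e : ((n : ℝ) - k) * -(1 / 2 ^ k) = -((n - k) / 2 ^ k) := by ring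
  linarith

theorem tour (n k : ℕ) (h : 2 ^ (4 * k + 4) ≤ n) : ∃ f : Fin n → Fin n → Bool,
    ∀ S : Finset (Fin n), S.card ≤ k → ∃ u, u ∉ S ∧ ∀ a ∈ S, beat f u a := by
  classical
  by_contra hn
  push Not at hn
  have kn : k ≤ n := by
    have : k < 2 ^ k := Nat.lt_two_pow_self
    have := Nat.pow_le_pow_right (n := 2) (by norm_num) (show k ≤ 4 * k + 4 by omega)
    omega
  have a : (univ : Finset (Fin n → Fin n → Bool)) ⊆ (powersetCard k univ).biUnion fun S =>
      univ.filter fun f => ∀ u, u ∉ S → ¬ ∀ a ∈ S, beat f u a := by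
    intro f _
    obtain ⟨S, h1, h2⟩ := hn f
    obtain ⟨T, t1, -, t2⟩ := exists_subsuperset_card_eq (subset_univ S) h1 (by simpa using kn)
    refine mem_biUnion.2 ⟨T, by simp [t2], mem_filter.2 ⟨mem_univ _, fun u hu x => ?_⟩⟩
    obtain ⟨a, ha, b⟩ := h2 u fun y => hu (t1 y)
    exact b (x a (t1 ha))
  have b := (card_le_card a).trans card_biUnion_le
  have c := (Nat.cast_le (α := ℝ)).2 b
  simp only [card_univ, Fintype.card_fun, Fintype.card_bool, Fintype.card_fin] at c
  push_cast at c
  have d := c.trans (sum_le_card_nsmul _ _ ((2 ^ n) ^ n * (1 - 1 / 2 ^ k) ^ (n - k)) fun S hS => by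
    have := bad S
    rw [(mem_powersetCard.1 hS).2] at this
    convert this)
  rw [card_powersetCard, card_univ, Fintype.card_fin, nsmul_eq_mul] at d
  have e : (n.choose k : ℝ) ≤ n ^ k := by exact_mod_cast Nat.choose_le_pow n k
  have f := num n k h
  have g : (0 : ℝ) ≤ (1 - 1 / 2 ^ k) ^ (n - k) := pow_nonneg (by
    rw [sub_nonneg, div_le_one (by positivity)]
    exact one_le_pow₀ one_le_two) _
  have p : (0 : ℝ) < (2 ^ n) ^ n := by positivity
  have := mul_le_mul_of_nonneg_right e g
  nlinarith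

end Pool.Agent.H.MP_869403_co.A
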